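import Pool.Agent.Lib.MP_43d240_ag.PI.Base

/-!
# The local ring at a prime of a unique factorization domain, as a subring of the fraction field
-/

set_option autoImplicit false

open IsLocalRing

namespace Pool.Agent.PI

section

variable {B K : Type} [CommRing B] [IsDomain B] [UniqueFactorizationMonoid B] [Field K]
  {φ : B →+* K}

omit [IsDomain B] [UniqueFactorizationMonoid B] in
theorem FracMap.ne_zero' (hφ : FracMap φ) {b : B} (hb : b ≠ 0) : φ b ≠ 0 := fun h =>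
  hb (hφ.1 (by rw [h, map_zero]))

omit [IsDomain B] [UniqueFactorizationMonoid B] in
theorem IntAt.of_mem (p : B) (hp : Prime p) (b : B) : IntAt φ p (φ b) :=
  ⟨b, 1, fun h => hp.not_isUnit (isUnit_of_dvd_one h), by simp⟩

omit [IsDomain B] [UniqueFactorizationMonoid B] in
theorem IntAt.mul' {p : B} (hp : Prime p) {x y : K} (hx : IntAt φ p x) (hy : IntAt φ p y) :
    IntAt φ p (x * y) := by
  obtain ⟨a, s, hs, hx⟩ := hx
  obtain ⟨b, t, ht, hy⟩ := hy
  refine ⟨a * b, s * t, fun h => (hp.dvd_or_dvd h).elim hs ht, ?_⟩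
  rw [map_mul, map_mul, ← hx, ← hy]
  ring

omit [IsDomain B] [UniqueFactorizationMonoid B] in
theorem IntAt.add' {p : B} (hp : Prime p) {x y : K} (hx : IntAt φ p x) (hy : IntAt φ p y) :
    IntAt φ p (x + y) := by
  obtain ⟨a, s, hs, hx⟩ := hx
  obtain ⟨b, t, ht, hy⟩ := hy
  refine ⟨a * t + b * s, s * t, fun h => (hp.dvd_or_dvd h).elim hs ht, ?_⟩
  rw [map_mul, map_add, map_mul, map_mul, ← hx, ← hy]
  ring

omit [IsDomain B] [UniqueFactorizationMonoid B] in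
theorem IntAt.neg' {p : B} {x : K} (hx : IntAt φ p x) : IntAt φ p (-x) := by
  obtain ⟨a, s, hs, hx⟩ := hx
  exact ⟨-a, s, hs, by rw [mul_neg, hx, map_neg]⟩

/-- The local ring at `p` as a subring of the fraction field. -/
def OAt (φ : B →+* K) (p : B) (hp : Prime p) : Subring K where
  carrier := {x | IntAt φ p x}
  mul_mem' := fun hx hy => IntAt.mul' hp hx hy
  one_mem' := by simpa using IntAt.of_mem (φ := φ) p hp 1
  add_mem' := fun hx hy => IntAt.add' hp hx hy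
  zero_mem' := by simpa using IntAt.of_mem (φ := φ) p hp 0
  neg_mem' := fun hx => IntAt.neg' hx

variable {p : B} (hp : Prime p)

omit [IsDomain B] [UniqueFactorizationMonoid B] in
theorem mem_OAt {x : K} : x ∈ OAt φ p hp ↔ IntAt φ p x := Iff.rfl

/-- The image of an element of `B`. -/
def OAt.ofB (b : B) : OAt φ p hp := ⟨φ b, IntAt.of_mem p hp b⟩

omit [IsDomain B] [UniqueFactorizationMonoid B] in
theorem OAt.coe_mul_inv (u : (OAt φ p hp)ˣ) :
    ((u : OAt φ p hp) : K) * (((u⁻¹ : (OAt φ p hp)ˣ) : OAt φ p hp) : K) = 1 :=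
  congrArg Subtype.val u.mul_inv

omit [IsDomain B] [UniqueFactorizationMonoid B] in
theorem OAt.isUnit_iff (hφ : FracMap φ) (x : OAt φ p hp) : IsUnit x ↔ UnitAt φ p (x : K) := by
  constructor
  · rintro ⟨u, rfl⟩
    obtain ⟨a, s, hs, h1⟩ := (u : OAt φ p hp).2
    obtain ⟨b, t, ht, h2⟩ := ((u⁻¹ : (OAt φ p hp)ˣ) : OAt φ p hp).2
    refine ⟨a, s, fun ha => ?_, hs, h1⟩
    have h3 := OAt.coe_mul_inv hp u
    have h4 : φ (s * t) = φ (a * b) := by
      rw [map_mul, map_mul, ← h1, ← h2]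
      linear_combination (-(φ s * φ t)) * h3
    have h5 := hφ.1 h4
    have h6 : p ∣ s * t := h5 ▸ (ha.mul_right b)
    exact (hp.dvd_or_dvd h6).elim hs ht
  · rintro ⟨a, s, ha, hs, h1⟩
    have ha0 : φ a ≠ 0 := hφ.ne_zero' (by rintro rfl; exact ha (dvd_zero _))
    have hs0 : φ s ≠ 0 := hφ.ne_zero' (by rintro rfl; exact hs (dvd_zero _))
    have hx0 : (x : K) ≠ 0 := by
      intro h
      rw [h, mul_zero] at h1
      exact ha0 h1.symm
    have hy : IntAt φ p (x : K)⁻¹ := ⟨s, a, ha, by rw [← h1]; field_simp⟩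
    refine IsUnit.of_mul_eq_one (⟨(x : K)⁻¹, hy⟩ : OAt φ p hp) ?_
    apply Subtype.ext
    change (x : K) * (x : K)⁻¹ = 1
    exact mul_inv_cancel₀ hx0

theorem OAt.ofB_isUnit_iff (hφ : FracMap φ) (b : B) :
    IsUnit (OAt.ofB (φ := φ) hp b) ↔ ¬ p ∣ b := by
  rw [OAt.isUnit_iff hp hφ]
  constructor
  · rintro ⟨a, s, ha, hs, h⟩ hb
    have h1 : φ (s * b) = φ a := by rw [map_mul]; exact h
    exact ha (hφ.1 h1 ▸ hb.mul_left s)
  · intro hb
    exact ⟨b, 1, hb, fun h => hp.not_isUnit (isUnit_of_dvd_one h), by simp [OAt.ofB]⟩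

theorem OAt.exists_eq (hφ : FracMap φ) (x : OAt φ p hp) (hx : x ≠ 0) :
    ∃ (n : ℕ) (u : (OAt φ p hp)ˣ), x = OAt.ofB (φ := φ) hp p ^ n * u := by
  obtain ⟨a, s, hs, h1⟩ := x.2
  have hs0 : φ s ≠ 0 := hφ.ne_zero' (by rintro rfl; exact hs (dvd_zero _))
  have ha0 : a ≠ 0 := by
    rintro rfl
    rw [map_zero] at h1
    rcases mul_eq_zero.1 h1 with h | h
    · exact hs0 h
    · exact hx (Subtype.ext h)
  obtain ⟨n, c, hc, hac⟩ := WfDvdMonoid.max_power_factor ha0 hp.irreducible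
  have hu : UnitAt φ p (φ c / φ s) := ⟨c, s, hc, hs, by field_simp⟩
  have hi : IntAt φ p (φ c / φ s) := ⟨c, s, hs, by field_simp⟩
  have hU : IsUnit (⟨φ c / φ s, hi⟩ : OAt φ p hp) := (OAt.isUnit_iff hp hφ _).2 hu
  refine ⟨n, hU.unit, ?_⟩
  apply Subtype.ext
  rw [IsUnit.unit_spec]
  change (x : K) = φ p ^ n * (φ c / φ s)
  rw [hac, map_mul, map_pow] at h1
  field_simp
  linear_combination h1

theorem OAt.irreducible (hφ : FracMap φ) : Irreducible (OAt.ofB (φ := φ) hp p) := by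
  constructor
  · rw [OAt.ofB_isUnit_iff hp hφ]
    exact fun h => h dvd_rfl
  · intro x y hxy
    have hpne : (OAt.ofB (φ := φ) hp p : OAt φ p hp) ≠ 0 := fun h =>
      hφ.ne_zero' hp.ne_zero (congrArg Subtype.val h)
    have hx : x ≠ 0 := by rintro rfl; rw [zero_mul] at hxy; exact hpne hxy
    have hy : y ≠ 0 := by rintro rfl; rw [mul_zero] at hxy; exact hpne hxy
    obtain ⟨n, u, hxu⟩ := OAt.exists_eq hp hφ x hx
    obtain ⟨m, v, hyv⟩ := OAt.exists_eq hp hφ y hy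
    rcases Nat.eq_zero_or_pos n with h0 | h0
    · left; rw [hxu, h0, pow_zero, one_mul]; exact u.isUnit
    rcases Nat.eq_zero_or_pos m with h1 | h1
    · right; rw [hyv, h1, pow_zero, one_mul]; exact v.isUnit
    exfalso
    have h2 : OAt.ofB (φ := φ) hp p * 1 = OAt.ofB (φ := φ) hp p *
        (OAt.ofB (φ := φ) hp p ^ (n - 1 + (m - 1) + 1) * ((u : OAt φ p hp) * (v : OAt φ p hp))) := by
      conv_lhs => rw [mul_one, hxy, hxu, hyv]
      obtain ⟨n, rfl⟩ := Nat.exists_eq_succ_of_ne_zero h0.ne'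
      obtain ⟨m, rfl⟩ := Nat.exists_eq_succ_of_ne_zero h1.ne'
      simp only [Nat.succ_eq_add_one, Nat.add_sub_cancel]
      ring
    have h3 := mul_left_cancel₀ hpne h2
    have h4 : IsUnit (OAt.ofB (φ := φ) hp p) := by
      refine IsUnit.of_mul_eq_one
        (OAt.ofB (φ := φ) hp p ^ (n - 1 + (m - 1)) * ((u : OAt φ p hp) * (v : OAt φ p hp))) ?_
      rw [h3]; ring
    rw [OAt.ofB_isUnit_iff hp hφ] at h4
    exact h4 dvd_rfl

theorem OAt.isDVR (hφ : FracMap φ) : IsDiscreteValuationRing (OAt φ p hp) := by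
  refine IsDiscreteValuationRing.ofHasUnitMulPowIrreducibleFactorization
    ⟨OAt.ofB hp p, OAt.irreducible hp hφ, fun {x} hx => ?_⟩
  obtain ⟨n, u, hu⟩ := OAt.exists_eq hp hφ x hx
  exact ⟨n, u, hu.symm⟩

omit [IsDomain B] [UniqueFactorizationMonoid B] in
theorem OAt.isFractionRing (hφ : FracMap φ) : IsFractionRing (OAt φ p hp) K := by
  refine IsFractionRing.of_field _ _ fun x => ?_
  obtain ⟨a, s, hs, h⟩ := hφ.2 x
  refine ⟨OAt.ofB hp a, OAt.ofB hp s, ?_⟩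
  change x = φ a / φ s
  rw [← h]
  field_simp

/-- Every nonzero element of the field is a power of `p` times a unit at `p`. -/
theorem exists_zpow_unit (hφ : FracMap φ) (x : K) (hx : x ≠ 0) :
    ∃ (n : ℤ) (u : (OAt φ p hp)ˣ), x = φ p ^ n * ((u : OAt φ p hp) : K) := by
  obtain ⟨a, s, hs, h⟩ := hφ.2 x
  have hs0 : s ≠ 0 := by rintro rfl; exact hs (map_zero _)
  have ha0 : a ≠ 0 := by
    rintro rfl
    rw [map_zero] at h
    rcases mul_eq_zero.1 h with h | h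
    · exact hs h
    · exact hx h
  have ha1 : (OAt.ofB (φ := φ) hp a) ≠ 0 := fun h => hφ.ne_zero' ha0 (congrArg Subtype.val h)
  have hs1 : (OAt.ofB (φ := φ) hp s) ≠ 0 := fun h => hφ.ne_zero' hs0 (congrArg Subtype.val h)
  obtain ⟨n, u, hu⟩ := OAt.exists_eq hp hφ _ ha1
  obtain ⟨m, v, hv⟩ := OAt.exists_eq hp hφ _ hs1
  have hu' : φ a = φ p ^ n * ((u : OAt φ p hp) : K) := congrArg Subtype.val hu
  have hv' : φ s = φ p ^ m * ((v : OAt φ p hp) : K) := congrArg Subtype.val hv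
  have hp0 : φ p ≠ 0 := hφ.ne_zero' hp.ne_zero
  have hv0 := OAt.coe_mul_inv hp v
  refine ⟨(n : ℤ) - m, u * v⁻¹, ?_⟩
  have hv1 : ((v : OAt φ p hp) : K) ≠ 0 := left_ne_zero_of_mul_eq_one hv0
  have h5 : x = φ a / φ s := by rw [← h]; field_simp
  rw [h5, hu', hv', zpow_sub₀ hp0, zpow_natCast, zpow_natCast]
  have h6 : (((u * v⁻¹ : (OAt φ p hp)ˣ) : OAt φ p hp) : K) =
    ((u : OAt φ p hp) : K) * (((v⁻¹ : (OAt φ p hp)ˣ) : OAt φ p hp) : K) := rfl
  rw [h6]
  have h7 : (((v⁻¹ : (OAt φ p hp)ˣ) : OAt φ p hp) : K) = ((v : OAt φ p hp) : K)⁻¹ :=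
    (eq_inv_of_mul_eq_one_right hv0)
  rw [h7]
  field_simp

end

end Pool.Agent.PI
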