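import Mathlib

/-!
# Normal forms of a six dimensional quadratic form at a discrete valuation ring

Section 2 of `H84/Paper.md` (Lemma 2 and Lemma 3): the form `c0 <a, b, ab, c, e, ce>` at a discrete
valuation ring `O` with fraction field `K`.
-/

set_option autoImplicit false

open Matrix IsLocalRing

namespace Pool.Agent.Lib.MP_43d240_ag.H33

universe u v w

section Defs

variable (O : Type u) {K : Type v} [CommRing O] [Field K] [Algebra O K]

/-- The quadratic form with Gram matrix `D` has a unimodular lattice over `O`. -/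
def Unimod {ι : Type w} [Fintype ι] [DecidableEq ι] (D : Matrix ι ι K) : Prop :=
  ∃ (P : GL ι K) (G : GL ι O),
    (P : Matrix ι ι K)ᵀ * D * (P : Matrix ι ι K) = (G : Matrix ι ι O).map (algebraMap O K)

/-- The quadratic form with Gram matrix `D` has, at the discrete valuation ring `O` with uniformizer
`p`, the shape `<u1,u2,u3,u4> ⊥ p <v1,v2>` with units `u`, `v` such that `v1 v2 f` is a square in the
residue field. -/
def Ramif [IsLocalRing O] (D : Matrix (Fin 4 ⊕ Fin 2) (Fin 4 ⊕ Fin 2) K) (p : O)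
    (f : ResidueField O) : Prop :=
  ∃ (P : GL (Fin 4 ⊕ Fin 2) K) (u : Fin 4 → Oˣ) (v : Fin 2 → Oˣ),
    (P : Matrix (Fin 4 ⊕ Fin 2) (Fin 4 ⊕ Fin 2) K)ᵀ * D *
        (P : Matrix (Fin 4 ⊕ Fin 2) (Fin 4 ⊕ Fin 2) K) =
      (fromBlocks (diagonal fun i => ((u i : Oˣ) : O)) 0 0
        (p • diagonal fun i => ((v i : Oˣ) : O))).map (algebraMap O K) ∧
    IsSquare (residue O ((v 0 : O) * (v 1 : O)) * f)

end Defs

section Basic

variable {O : Type u} {K : Type v} [CommRing O] [Field K] [Algebra O K]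

theorem Unimod.of_congr {ι : Type w} [Fintype ι] [DecidableEq ι] {D D' : Matrix ι ι K}
    (h : Unimod O D') (Q : GL ι K) (hQ : (Q : Matrix ι ι K)ᵀ * D * (Q : Matrix ι ι K) = D') :
    Unimod O D := by
  obtain ⟨P, G, hP⟩ := h
  refine ⟨Q * P, G, ?_⟩
  rw [← hP, ← hQ]
  simp only [Units.val_mul, Matrix.transpose_mul, Matrix.mul_assoc]

theorem Ramif.of_congr [IsLocalRing O] {D D' : Matrix (Fin 4 ⊕ Fin 2) (Fin 4 ⊕ Fin 2) K} {p : O}
    {f : ResidueField O} (h : Ramif O D' p f) (Q : GL (Fin 4 ⊕ Fin 2) K)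
    (hQ : (Q : Matrix _ _ K)ᵀ * D * (Q : Matrix _ _ K) = D') :
    Ramif O D p f := by
  obtain ⟨P, u, v, hP, hs⟩ := h
  refine ⟨Q * P, u, v, ?_, hs⟩
  rw [← hP, ← hQ]
  simp only [Units.val_mul, Matrix.transpose_mul, Matrix.mul_assoc]

/-- Scaling a form by a unit of `O` preserves `Unimod`. -/
theorem Unimod.smul_unit {ι : Type w} [Fintype ι] [DecidableEq ι] {D : Matrix ι ι K}
    (h : Unimod O D) (t : Oˣ) : Unimod O ((algebraMap O K t) • D) := by
  obtain ⟨P, G, hP⟩ := h
  have hu : IsUnit ((t : O) • (G : Matrix ι ι O)) := by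
    rw [Matrix.isUnit_iff_isUnit_det, Matrix.det_smul]
    exact (t.isUnit.pow _).mul ((Matrix.isUnit_iff_isUnit_det _).1 G.isUnit)
  refine ⟨P, hu.unit, ?_⟩
  rw [Matrix.mul_smul, Matrix.smul_mul, hP, IsUnit.unit_spec]
  ext i j
  simp [Matrix.map_apply]

/-- Scaling a form by a unit of `O` preserves `Ramif`. -/
theorem Ramif.smul_unit [IsLocalRing O] {D : Matrix (Fin 4 ⊕ Fin 2) (Fin 4 ⊕ Fin 2) K} {p : O}
    {f : ResidueField O} (h : Ramif O D p f) (t : Oˣ) :
    Ramif O ((algebraMap O K t) • D) p f := by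
  obtain ⟨P, u, v, hP, hs⟩ := h
  refine ⟨P, fun i => t * u i, fun i => t * v i, ?_, ?_⟩
  · rw [Matrix.mul_smul, Matrix.smul_mul, hP]
    ext i j
    rcases i with i | i <;> rcases j with j | j <;>
      simp [Matrix.map_apply, Matrix.diagonal_apply, apply_ite (algebraMap O K), mul_left_comm]
  · obtain ⟨r, hr⟩ := hs
    refine ⟨residue O t * r, ?_⟩
    push_cast
    rw [show ((t : O) * (v 0 : O)) * ((t : O) * (v 1 : O)) = (t : O) * (t : O) * ((v 0 : O) * (v 1 : O))
      by ring, map_mul, map_mul, mul_assoc, hr]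
    ring

/-- Change of the square class of the residue. -/
theorem Ramif.congr_residue [IsLocalRing O] {D : Matrix (Fin 4 ⊕ Fin 2) (Fin 4 ⊕ Fin 2) K} {p : O}
    {f g : ResidueField O} (h : Ramif O D p f) (hf : f ≠ 0) (hfg : IsSquare (f * g)) :
    Ramif O D p g := by
  obtain ⟨P, u, v, hP, hs⟩ := h
  refine ⟨P, u, v, hP, ?_⟩
  obtain ⟨r, hr⟩ := hs
  obtain ⟨s, hs⟩ := hfg
  refine ⟨r * s / f, ?_⟩
  field_simp
  have : residue O ((v 0 : O) * (v 1 : O)) * g * f ^ 2 =
    (residue O ((v 0 : O) * (v 1 : O)) * f) * (f * g) := by ring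
  rw [this, hr, hs]
  ring

end Basic

section Diag

variable {O : Type u} {K : Type v} [CommRing O] [IsDomain O] [IsDiscreteValuationRing O]
  [Field K] [Algebra O K] [IsFractionRing O K]

/-- The elementary congruences of diagonal forms: permutations and squares. -/
theorem exists_congr_diagonal {ι : Type w} [Fintype ι] [DecidableEq ι] (F : ι → K)
    (σ : Equiv.Perm ι) (s : ι → Kˣ) :
    ∃ Q : GL ι K, (Q : Matrix ι ι K)ᵀ * diagonal F * (Q : Matrix ι ι K) =
      diagonal fun i => F (σ i) * ((s i : K)) ^ 2 := by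
  classical
  let A : Matrix ι ι K := Matrix.of fun i j => if σ j = i then ((s j : Kˣ) : K) else 0
  let B : Matrix ι ι K := Matrix.of fun j i => if σ j = i then (((s j)⁻¹ : Kˣ) : K) else 0
  have hBA : B * A = 1 := by
    ext i j
    rw [Matrix.mul_apply, Finset.sum_eq_single (σ i)]
    · by_cases hij : i = j
      · subst hij; simp [A, B]
      · simp [A, B, hij, Ne.symm hij]
    · intro k _ hk
      simp [B, Ne.symm hk]
    · simp
  have hAB : A * B = 1 := mul_eq_one_comm.1 hBA
  refine ⟨⟨A, B, hAB, hBA⟩, ?_⟩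
  ext i j
  change (Aᵀ * diagonal F * A) i j = _
  rw [Matrix.mul_apply, Finset.sum_eq_single (σ i)]
  · rw [Matrix.mul_diagonal]
    by_cases hij : i = j
    · subst hij
      simp only [A, Matrix.transpose_apply, Matrix.of_apply, if_true, Matrix.diagonal_apply_eq]
      ring
    · simp [A, hij, Ne.symm hij]
  · intro k _ hk
    rw [Matrix.mul_diagonal]
    simp [A, Ne.symm hk]
  · simp

theorem unimod_diagonal {ι : Type w} [Fintype ι] [DecidableEq ι] (u : ι → Oˣ) :
    Unimod O (diagonal fun i => algebraMap O K (u i)) := by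
  have hu : IsUnit (diagonal fun i => ((u i : Oˣ) : O) : Matrix ι ι O) := by
    rw [Matrix.isUnit_iff_isUnit_det, Matrix.det_diagonal]
    exact IsUnit.prod_univ_iff.2 fun i => (u i).isUnit
  refine ⟨1, hu.unit, ?_⟩
  rw [IsUnit.unit_spec, Units.val_one, Matrix.transpose_one, Matrix.one_mul, Matrix.mul_one]
  ext i j
  simp [Matrix.map_apply, Matrix.diagonal_apply, apply_ite (algebraMap O K)]

/-- The final forms. -/
theorem normal_two {p : O} (hp : Irreducible p) (hi : IsSquare (-1 : ResidueField O))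
    (u : Fin 4 → Oˣ) (v : Fin 2 → Oˣ) (f : ResidueField O) (hf : f ≠ 0)
    (hv : IsSquare (residue O ((v 0 : O) * (v 1 : O)) * f)) :
    (IsSquare f → Unimod O (diagonal (Sum.elim (fun i => algebraMap O K (u i))
      (fun i => algebraMap O K p * algebraMap O K (v i))) : Matrix (Fin 4 ⊕ Fin 2) (Fin 4 ⊕ Fin 2) K)) ∧
    Ramif O (diagonal (Sum.elim (fun i => algebraMap O K (u i))
      (fun i => algebraMap O K p * algebraMap O K (v i))) :
        Matrix (Fin 4 ⊕ Fin 2) (Fin 4 ⊕ Fin 2) K) p f := by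
  constructor
  · rintro ⟨g, hg⟩
    obtain ⟨r, hr⟩ := hv
    obtain ⟨j, hj⟩ := hi
    have hg0 : g ≠ 0 := by rintro rfl; simp at hg; exact hf hg
    have hv1 : residue O (v 1 : O) ≠ 0 := by
      rw [Ne, residue_eq_zero_iff]
      exact fun h => h (v 1).isUnit
    -- `eta` with `v 0 + v 1 * eta ^ 2 ∈ (p)`
    obtain ⟨η, hη⟩ := residue_surjective (R := O) (j * r / (g * residue O (v 1 : O)))
    have h1 : residue O ((v 0 : O) + (v 1 : O) * η ^ 2) = 0 := by
      rw [map_add, map_mul, map_pow, hη]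
      field_simp
      rw [map_mul] at hr
      linear_combination hr - (residue O (v 0 : O) * residue O (v 1 : O)) * hg - r ^ 2 * hj
    rw [residue_eq_zero_iff, hp.maximalIdeal_eq, Ideal.mem_span_singleton] at h1
    obtain ⟨t, ht⟩ := h1
    have hη1 : residue O η ≠ 0 := by
      intro h0
      have h2 : residue O ((v 0 : O) + (v 1 : O) * η ^ 2) = 0 := by
        rw [ht, map_mul, (residue_eq_zero_iff p).2 (by
          rw [hp.maximalIdeal_eq]; exact Ideal.mem_span_singleton_self p), zero_mul]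
      rw [map_add, map_mul, map_pow, h0] at h2
      rw [zero_pow two_ne_zero, mul_zero, add_zero, residue_eq_zero_iff] at h2
      exact h2 (v 0).isUnit
    have hpK : algebraMap O K p ≠ 0 := by
      rw [Ne, FaithfulSMul.algebraMap_eq_zero_iff]
      exact hp.ne_zero
    have hηK : algebraMap O K η ≠ 0 := by
      rw [Ne, FaithfulSMul.algebraMap_eq_zero_iff]
      rintro rfl
      simp at hη1
    -- the Gram matrix of the new lattice
    let W : Matrix (Fin 2) (Fin 2) O := !![t, (v 0 : O); (v 0 : O), p * (v 0 : O)]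
    have hW : IsUnit W := by
      rw [Matrix.isUnit_iff_isUnit_det, Matrix.det_fin_two_of]
      have h4 : t * (p * (v 0 : O)) - (v 0 : O) * (v 0 : O) ∉ maximalIdeal O := by
        intro h5
        have h6 : (v 0 : O) * (v 0 : O) ∈ maximalIdeal O := by
          have h7 : t * (p * (v 0 : O)) ∈ maximalIdeal O := by
            rw [hp.maximalIdeal_eq, Ideal.mem_span_singleton]
            exact ⟨t * (v 0 : O), by ring⟩
          have h8 := (maximalIdeal O).sub_mem h7 h5
          rwa [sub_sub_cancel] at h8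
        rw [mem_maximalIdeal] at h6
        exact h6 ((v 0).isUnit.mul (v 0).isUnit)
      simpa [mem_maximalIdeal] using h4
    have hG : IsUnit (fromBlocks (diagonal fun i => ((u i : Oˣ) : O)) 0 0 W :
        Matrix (Fin 4 ⊕ Fin 2) (Fin 4 ⊕ Fin 2) O) := by
      rw [Matrix.isUnit_iff_isUnit_det, Matrix.det_fromBlocks_zero₁₂, Matrix.det_diagonal]
      exact (IsUnit.prod_univ_iff.2 fun i => (u i).isUnit).mul
        ((Matrix.isUnit_iff_isUnit_det _).1 hW)
    let Q : Matrix (Fin 2) (Fin 2) K := !![(algebraMap O K p)⁻¹, 1;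
      algebraMap O K η * (algebraMap O K p)⁻¹, 0]
    have hQ : IsUnit (fromBlocks (1 : Matrix (Fin 4) (Fin 4) K) 0 0 Q) := by
      rw [Matrix.isUnit_iff_isUnit_det, Matrix.det_fromBlocks_zero₁₂, Matrix.det_one, one_mul,
        Matrix.det_fin_two_of, isUnit_iff_ne_zero]
      simp [hηK, hpK]
    refine ⟨hQ.unit, hG.unit, ?_⟩
    rw [IsUnit.unit_spec, IsUnit.unit_spec, ← Matrix.fromBlocks_diagonal,
      Matrix.fromBlocks_transpose, Matrix.fromBlocks_multiply, Matrix.fromBlocks_multiply,
      Matrix.fromBlocks_map]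
    have htK := congrArg (algebraMap O K) ht
    simp only [map_add, map_mul, map_pow] at htK
    congr 1
    · ext i j
      simp [Matrix.diagonal_apply, apply_ite (algebraMap O K)]
    · ext i j; simp
    · ext i j; simp
    · ext i j
      fin_cases i <;> fin_cases j <;>
        simp [Q, W, Matrix.mul_apply, Fin.sum_univ_two, Matrix.diagonal_apply]
      · field_simp
        linear_combination htK
      · field_simp
      · field_simp
  · refine ⟨1, u, v, ?_, hv⟩
    rw [Units.val_one, Matrix.transpose_one, Matrix.one_mul, Matrix.mul_one]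
    ext i j
    rcases i with i | i <;> rcases j with j | j <;>
      simp [Matrix.map_apply, Matrix.diagonal_apply, apply_ite (algebraMap O K)]

end Diag

end Pool.Agent.Lib.MP_43d240_ag.H33
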