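import Pool.Agent.Lib.MP_43d240_ag.H33.LocSub
import Pool.Agent.Lib.MP_43d240_ag.H33.NormalForm

/-!
# Chapter 2 (RNF) of project PI: residues of a relation and normal form of the Albert form
-/

set_option autoImplicit false

open IsLocalRing Matrix

namespace Pool.Agent.PI

open Pool.Agent.Lib.MP_43d240_ag.H33

section normal

variable {O K : Type} [CommRing O] [IsDomain O] [IsDiscreteValuationRing O] [Field K] [Algebra O K]
  [IsFractionRing O K]

/-- parity normalisation of an exponent -/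
theorem exp_norm {p : O} (hp : Irreducible p) (n : ℤ) :
    ∃ s : Kˣ, ∀ U : K, algebraMap O K p ^ n * U * (s : K) ^ 2 = algebraMap O K p ^ (n % 2) * U := by
  have hpK : algebraMap O K p ≠ 0 := by
    rw [Ne, FaithfulSMul.algebraMap_eq_zero_iff]
    exact hp.ne_zero
  refine ⟨Units.mk0 (algebraMap O K p ^ (-(n / 2))) (zpow_ne_zero _ hpK), fun U => ?_⟩
  have h1 : (algebraMap O K p ^ (-(n / 2))) ^ 2 = algebraMap O K p ^ (-(n / 2) * 2) := by
    rw [_root_.zpow_mul]; exact (zpow_ofNat _ 2).symm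
  rw [Units.val_mk0, h1, mul_right_comm, ← zpow_add₀ hpK]
  congr 2
  omega

theorem uni_all_even {ι : Type} [Fintype ι] [DecidableEq ι] {p : O} (hp : Irreducible p)
    (F : ι → K) (n : ι → ℤ) (U : ι → Oˣ) (hF : ∀ i, F i = algebraMap O K p ^ n i * algebraMap O K (U i))
    (he : ∀ i, Even (n i)) : Unimod O (diagonal F) := by
  choose s hs using fun i => exp_norm (K := K) hp (n i)
  obtain ⟨Q, hQ⟩ := exists_congr_diagonal F (Equiv.refl ι) s
  have h1 : (diagonal fun i => F (Equiv.refl ι i) * ((s i : K)) ^ 2) =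
      diagonal fun i => algebraMap O K (U i) := by
    congr 1
    funext i
    rw [Equiv.refl_apply, hF, hs, Int.even_iff.1 (he i), zpow_zero, one_mul]
  rw [h1] at hQ
  exact (unimod_diagonal U).of_congr Q hQ

theorem swap_swap_apply {α : Type} [DecidableEq α] (a b c : α) :
    Equiv.swap a b (Equiv.swap a b c) = c := by
  simp

/-- the reindexing of six entries -/
theorem exists_equiv_two {i j : Fin 6} (hij : i ≠ j) :
    ∃ e : Fin 4 ⊕ Fin 2 ≃ Fin 6, e (Sum.inr 0) = i ∧ e (Sum.inr 1) = j := by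
  let e0 : Fin 4 ⊕ Fin 2 ≃ Fin 6 := finSumFinEquiv
  let a0 := e0 (Sum.inr 0)
  let a1 := e0 (Sum.inr 1)
  have h01 : a0 ≠ a1 := fun h => by simpa [a0, a1] using e0.injective h
  let σ : Equiv.Perm (Fin 6) := (Equiv.swap a1 (Equiv.swap a0 i j)).trans (Equiv.swap a0 i)
  refine ⟨e0.trans σ, ?_, ?_⟩
  · have h1 : Equiv.swap a1 (Equiv.swap a0 i j) a0 = a0 := by
      apply Equiv.swap_apply_of_ne_of_ne h01
      intro h
      have := congrArg (Equiv.swap a0 i) h
      rw [swap_swap_apply, Equiv.swap_apply_left] at this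
      exact hij this
    simp only [Equiv.trans_apply, σ]
    change Equiv.swap a0 i (Equiv.swap a1 (Equiv.swap a0 i j) a0) = i
    rw [h1, Equiv.swap_apply_left]
  · simp only [Equiv.trans_apply, σ]
    change Equiv.swap a0 i (Equiv.swap a1 (Equiv.swap a0 i j) a1) = j
    rw [Equiv.swap_apply_left]
    exact swap_swap_apply _ _ _

/-- Two odd entries: the reindexed form. -/
theorem two_odd {p : O} (hp : Irreducible p) (hi : IsSquare (-1 : ResidueField O))
    (F : Fin 6 → K) (n : Fin 6 → ℤ) (U : Fin 6 → Oˣ)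
    (hF : ∀ i, F i = algebraMap O K p ^ n i * algebraMap O K (U i))
    {i j : Fin 6} (hij : i ≠ j) (hni : Odd (n i)) (hnj : Odd (n j))
    (he : ∀ k, k ≠ i → k ≠ j → Even (n k)) (f : ResidueField O) (hf : f ≠ 0)
    (hs : IsSquare (residue O ((U i : O) * (U j : O)) * f)) :
    ∃ e : Fin 4 ⊕ Fin 2 ≃ Fin 6, e (Sum.inr 0) = i ∧ e (Sum.inr 1) = j ∧
      (IsSquare f → Unimod O (diagonal (F ∘ e))) ∧
      ∃ Q : GL (Fin 4 ⊕ Fin 2) K, (Q : Matrix _ _ K)ᵀ * diagonal (F ∘ e) * (Q : Matrix _ _ K) =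
        diagonal (Sum.elim (fun k => algebraMap O K (U (e (Sum.inl k))))
          (fun k => algebraMap O K p * algebraMap O K (U (e (Sum.inr k))))) := by
  obtain ⟨e, he0, he1⟩ := exists_equiv_two hij
  choose s hs' using fun k => exp_norm (K := K) hp (n (e k))
  obtain ⟨Q, hQ⟩ := exists_congr_diagonal (F ∘ e) (Equiv.refl (Fin 4 ⊕ Fin 2)) s
  have h1 : (diagonal fun k => (F ∘ e) (Equiv.refl (Fin 4 ⊕ Fin 2) k) * ((s k : K)) ^ 2) =
      diagonal (Sum.elim (fun k => algebraMap O K (U (e (Sum.inl k))))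
          (fun k => algebraMap O K p * algebraMap O K (U (e (Sum.inr k))))) := by
    congr 1
    funext k
    rw [Equiv.refl_apply, Function.comp_apply, hF, hs']
    rcases k with k | k
    · have h2 : Even (n (e (Sum.inl k))) := by
        apply he
        · rw [← he0]
          intro h
          exact Sum.inl_ne_inr (e.injective h)
        · rw [← he1]
          intro h
          exact Sum.inl_ne_inr (e.injective h)
      rw [Int.even_iff.1 h2, zpow_zero, one_mul, Sum.elim_inl]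
    · have h2 : Odd (n (e (Sum.inr k))) := by
        fin_cases k
        · change Odd (n (e (Sum.inr 0))); rw [he0]; exact hni
        · change Odd (n (e (Sum.inr 1))); rw [he1]; exact hnj
      rw [Int.odd_iff.1 h2, zpow_one, Sum.elim_inr]
  rw [h1] at hQ
  refine ⟨e, he0, he1, fun hfs => ?_, Q, hQ⟩
  have h3 := (normal_two (K := K) hp hi (fun k => U (e (Sum.inl k))) (fun k => U (e (Sum.inr k))) f hf
    (by simpa only [he0, he1] using hs)).1 hfs
  exact h3.of_congr Q hQ

end normal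

section parity

variable {κ : Type} [Field κ]

theorem isSquare_zpow_even {x : κ} {n : ℤ} (hn : n % 2 = 0) : IsSquare (x ^ n) := by
  have h1 : n = 2 * (n / 2) := by omega
  rw [h1, mul_comm, _root_.zpow_mul]
  exact ⟨x ^ (n / 2), by rw [zpow_ofNat, sq]⟩

theorem isSquare_zpow_odd {x : κ} (hx : x ≠ 0) {n : ℤ} (hn : n % 2 = 1) :
    IsSquare (x ^ n * x) := by
  have h1 : x ^ n * x = x ^ (n + 1) := by rw [zpow_add_one₀ hx]
  rw [h1]
  exact isSquare_zpow_even (by omega)

theorem triple (m n : ℤ) {u v : κ} (hu : u ≠ 0) (hv : v ≠ 0) :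
    (m % 2 = 0 ∧ n % 2 = 0 ∧ IsSquare (u ^ n * v ^ m * 1)) ∨
    (m % 2 = 1 ∧ n % 2 = 0 ∧ IsSquare (u ^ n * v ^ m * v) ∧ IsSquare (u ^ n * v ^ m * (u * (u * v)))) ∨
    (m % 2 = 0 ∧ n % 2 = 1 ∧ IsSquare (u ^ n * v ^ m * u) ∧ IsSquare (u ^ n * v ^ m * (v * (u * v)))) ∨
    (m % 2 = 1 ∧ n % 2 = 1 ∧ IsSquare (u ^ n * v ^ m * (u * v)) ∧
      IsSquare (u ^ n * v ^ m * (u * v))) := by
  rcases Int.emod_two_eq_zero_or_one m with hm | hm <;>
    rcases Int.emod_two_eq_zero_or_one n with hn | hn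
  · left
    refine ⟨hm, hn, ?_⟩
    rw [mul_one]
    exact (isSquare_zpow_even hn).mul (isSquare_zpow_even hm)
  · right; right; left
    have h1 : IsSquare (u ^ n * v ^ m * u) := by
      rw [mul_right_comm]
      exact (isSquare_zpow_odd hu hn).mul (isSquare_zpow_even hm)
    refine ⟨hm, hn, h1, ?_⟩
    rw [show u ^ n * v ^ m * (v * (u * v)) = u ^ n * v ^ m * u * (v * v) by ring]
    exact h1.mul ⟨v, rfl⟩
  · right; left
    have h1 : IsSquare (u ^ n * v ^ m * v) := by
      rw [mul_assoc]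
      exact (isSquare_zpow_even hn).mul (isSquare_zpow_odd hv hm)
    refine ⟨hm, hn, h1, ?_⟩
    rw [show u ^ n * v ^ m * (u * (u * v)) = u ^ n * v ^ m * v * (u * u) by ring]
    exact h1.mul ⟨u, rfl⟩
  · right; right; right
    have h1 : IsSquare (u ^ n * v ^ m * (u * v)) := by
      rw [show u ^ n * v ^ m * (u * v) = (u ^ n * u) * (v ^ m * v) by ring]
      exact (isSquare_zpow_odd hu hn).mul (isSquare_zpow_odd hv hm)
    exact ⟨hm, hn, h1, h1⟩

theorem comb {f t0 t1 x y : κ} (h : IsSquare (f * (t0 * t1))) (h0 : IsSquare (t0 * x))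
    (h1 : IsSquare (t1 * y)) (ht0 : t0 ≠ 0) (ht1 : t1 ≠ 0) : IsSquare (x * y * f) := by
  obtain ⟨r, hr⟩ := h
  obtain ⟨s, hs⟩ := h0
  obtain ⟨t, ht⟩ := h1
  refine ⟨s * t * r / (t0 * t1), ?_⟩
  field_simp
  linear_combination (t0 * x) * (t1 * y) * hr + (r ^ 2 * (t1 * y)) * hs + r ^ 2 * s ^ 2 * ht

/-- the exponents of the Albert form -/
def expo (m n : Fin 2 → ℤ) : Fin 6 → ℤ := ![m 0, n 0, m 0 + n 0, m 1, n 1, m 1 + n 1]

/-- the unit parts of the entries of the Albert form -/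
def unitp {M : Type} [Mul M] (u v : Fin 2 → M) : Fin 6 → M :=
  ![u 0, v 0, u 0 * v 0, u 1, v 1, u 1 * v 1]

theorem main_cases (m n : Fin 2 → ℤ) (u v : Fin 2 → κ) (hu : ∀ j, u j ≠ 0) (hv : ∀ j, v j ≠ 0)
    (f : κ) (h : IsSquare (f * ((u 0 ^ n 0 * v 0 ^ m 0) * (u 1 ^ n 1 * v 1 ^ m 1)))) :
    ∃ ε : ℕ, ε ≤ 1 ∧ (((∀ i, Even (expo m n i + ε)) ∧ IsSquare f) ∨
      ∃ i j : Fin 6, i ≠ j ∧ Odd (expo m n i + ε) ∧ Odd (expo m n j + ε) ∧
        (∀ k, k ≠ i → k ≠ j → Even (expo m n k + ε)) ∧ IsSquare (unitp u v i * unitp u v j * f)) := by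
  have t0 : u 0 ^ n 0 * v 0 ^ m 0 ≠ 0 := mul_ne_zero (zpow_ne_zero _ (hu 0)) (zpow_ne_zero _ (hv 0))
  have t1 : u 1 ^ n 1 * v 1 ^ m 1 ≠ 0 := mul_ne_zero (zpow_ne_zero _ (hu 1)) (zpow_ne_zero _ (hv 1))
  simp only [Int.even_iff, Int.odd_iff]
  rcases triple (m 0) (n 0) (hu 0) (hv 0) with ⟨a, b, c⟩ | ⟨a, b, c, d⟩ | ⟨a, b, c, d⟩ | ⟨a, b, c, d⟩ <;>
    rcases triple (m 1) (n 1) (hu 1) (hv 1) with ⟨a', b', c'⟩ | ⟨a', b', c', d'⟩ |
      ⟨a', b', c', d'⟩ | ⟨a', b', c', d'⟩
  · refine ⟨0, by omega, Or.inl ⟨fun i => ?_, ?_⟩⟩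
    · fin_cases i <;> simp [expo] <;> omega
    · simpa using comb h c c' t0 t1
  · refine ⟨0, by omega, Or.inr ⟨3, 5, by decide, ?_, ?_, fun k h1 h2 => ?_, ?_⟩⟩
    · simp [expo]; omega
    · simp [expo]; omega
    · fin_cases k <;> simp [expo] at h1 h2 ⊢ <;> omega
    · simpa [unitp] using comb h c d' t0 t1
  · refine ⟨0, by omega, Or.inr ⟨4, 5, by decide, ?_, ?_, fun k h1 h2 => ?_, ?_⟩⟩
    · simp [expo]; omega
    · simp [expo]; omega
    · fin_cases k <;> simp [expo] at h1 h2 ⊢ <;> omega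
    · simpa [unitp] using comb h c d' t0 t1
  · refine ⟨0, by omega, Or.inr ⟨3, 4, by decide, ?_, ?_, fun k h1 h2 => ?_, ?_⟩⟩
    · simp [expo]; omega
    · simp [expo]; omega
    · fin_cases k <;> simp [expo] at h1 h2 ⊢ <;> omega
    · simpa [unitp] using comb h c d' t0 t1
  · refine ⟨0, by omega, Or.inr ⟨0, 2, by decide, ?_, ?_, fun k h1 h2 => ?_, ?_⟩⟩
    · simp [expo]; omega
    · simp [expo]; omega
    · fin_cases k <;> simp [expo] at h1 h2 ⊢ <;> omega
    · simpa [unitp] using comb h d c' t0 t1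
  · refine ⟨1, by omega, Or.inr ⟨1, 4, by decide, ?_, ?_, fun k h1 h2 => ?_, ?_⟩⟩
    · simp [expo]; omega
    · simp [expo]; omega
    · fin_cases k <;> simp [expo] at h1 h2 ⊢ <;> omega
    · simpa [unitp] using comb h c c' t0 t1
  · refine ⟨1, by omega, Or.inr ⟨1, 3, by decide, ?_, ?_, fun k h1 h2 => ?_, ?_⟩⟩
    · simp [expo]; omega
    · simp [expo]; omega
    · fin_cases k <;> simp [expo] at h1 h2 ⊢ <;> omega
    · simpa [unitp] using comb h c c' t0 t1
  · refine ⟨1, by omega, Or.inr ⟨1, 5, by decide, ?_, ?_, fun k h1 h2 => ?_, ?_⟩⟩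
    · simp [expo]; omega
    · simp [expo]; omega
    · fin_cases k <;> simp [expo] at h1 h2 ⊢ <;> omega
    · simpa [unitp] using comb h c c' t0 t1
  · refine ⟨0, by omega, Or.inr ⟨1, 2, by decide, ?_, ?_, fun k h1 h2 => ?_, ?_⟩⟩
    · simp [expo]; omega
    · simp [expo]; omega
    · fin_cases k <;> simp [expo] at h1 h2 ⊢ <;> omega
    · simpa [unitp] using comb h d c' t0 t1
  · refine ⟨1, by omega, Or.inr ⟨0, 4, by decide, ?_, ?_, fun k h1 h2 => ?_, ?_⟩⟩
    · simp [expo]; omega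
    · simp [expo]; omega
    · fin_cases k <;> simp [expo] at h1 h2 ⊢ <;> omega
    · simpa [unitp] using comb h c c' t0 t1
  · refine ⟨1, by omega, Or.inr ⟨0, 3, by decide, ?_, ?_, fun k h1 h2 => ?_, ?_⟩⟩
    · simp [expo]; omega
    · simp [expo]; omega
    · fin_cases k <;> simp [expo] at h1 h2 ⊢ <;> omega
    · simpa [unitp] using comb h c c' t0 t1
  · refine ⟨1, by omega, Or.inr ⟨0, 5, by decide, ?_, ?_, fun k h1 h2 => ?_, ?_⟩⟩
    · simp [expo]; omega
    · simp [expo]; omega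
    · fin_cases k <;> simp [expo] at h1 h2 ⊢ <;> omega
    · simpa [unitp] using comb h c c' t0 t1
  · refine ⟨0, by omega, Or.inr ⟨0, 1, by decide, ?_, ?_, fun k h1 h2 => ?_, ?_⟩⟩
    · simp [expo]; omega
    · simp [expo]; omega
    · fin_cases k <;> simp [expo] at h1 h2 ⊢ <;> omega
    · simpa [unitp] using comb h d c' t0 t1
  · refine ⟨1, by omega, Or.inr ⟨2, 4, by decide, ?_, ?_, fun k h1 h2 => ?_, ?_⟩⟩
    · simp [expo]; omega
    · simp [expo]; omega
    · fin_cases k <;> simp [expo] at h1 h2 ⊢ <;> omega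
    · simpa [unitp] using comb h c c' t0 t1
  · refine ⟨1, by omega, Or.inr ⟨2, 3, by decide, ?_, ?_, fun k h1 h2 => ?_, ?_⟩⟩
    · simp [expo]; omega
    · simp [expo]; omega
    · fin_cases k <;> simp [expo] at h1 h2 ⊢ <;> omega
    · simpa [unitp] using comb h c c' t0 t1
  · refine ⟨1, by omega, Or.inr ⟨2, 5, by decide, ?_, ?_, fun k h1 h2 => ?_, ?_⟩⟩
    · simp [expo]; omega
    · simp [expo]; omega
    · fin_cases k <;> simp [expo] at h1 h2 ⊢ <;> omega
    · simpa [unitp] using comb h c c' t0 t1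

end parity

section convert

variable {B K : Type} [CommRing B] [IsDomain B] [UniqueFactorizationMonoid B] [Field K]
  {φ : B →+* K} {p : B} (hp : Prime p)

omit [IsDomain B] [UniqueFactorizationMonoid B] in
theorem uni_of_unimod (hφ : FracMap φ) {ι : Type} [Fintype ι] [DecidableEq ι] (e : ι ≃ Fin 6)
    (F : Fin 6 → K) (h : Unimod (OAt φ p hp) (diagonal (F ∘ e))) : Uni φ p (diagonal F) := by
  obtain ⟨P, G, hPG⟩ := h
  let P6 : Matrix (Fin 6) (Fin 6) K := (P : Matrix ι ι K).submatrix e.symm e.symm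
  have h1 : P6ᵀ * diagonal F * P6 =
      ((G : Matrix ι ι (OAt φ p hp)).map (algebraMap (OAt φ p hp) K)).submatrix e.symm e.symm := by
    have h2 : diagonal F = (diagonal (F ∘ e)).submatrix e.symm e.symm := by
      rw [Matrix.submatrix_diagonal_equiv]
      congr 1
      funext i
      simp
    rw [h2, ← hPG]
    simp only [P6, Matrix.transpose_submatrix]
    rw [Matrix.submatrix_mul_equiv, Matrix.submatrix_mul_equiv]
  refine ⟨P6, ?_, fun i j => ?_, ?_⟩
  · rw [Matrix.det_submatrix_equiv_self]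
    exact ((Matrix.isUnit_iff_isUnit_det _).1 P.isUnit).ne_zero
  · rw [h1]
    exact ((G : Matrix ι ι (OAt φ p hp)) (e.symm i) (e.symm j)).2
  · rw [h1, Matrix.det_submatrix_equiv_self]
    have h3 : ((G : Matrix ι ι (OAt φ p hp)).map (algebraMap (OAt φ p hp) K)).det =
        algebraMap (OAt φ p hp) K (G : Matrix ι ι (OAt φ p hp)).det :=
      (RingHom.map_det _ _).symm
    rw [h3]
    exact (OAt.isUnit_iff hp hφ _).1 ((Matrix.isUnit_iff_isUnit_det _).1 G.isUnit)

omit [IsDomain B] [UniqueFactorizationMonoid B] in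
theorem ram_of_congr (hφ : FracMap φ) (e : Fin 4 ⊕ Fin 2 ≃ Fin 6) (F : Fin 6 → K)
    (U : Fin 6 → (OAt φ p hp)ˣ)
    (Q : GL (Fin 4 ⊕ Fin 2) K) (hQ : (Q : Matrix _ _ K)ᵀ * diagonal (F ∘ e) * (Q : Matrix _ _ K) =
        diagonal (Sum.elim (fun k => algebraMap (OAt φ p hp) K (U (e (Sum.inl k))))
          (fun k => φ p * algebraMap (OAt φ p hp) K (U (e (Sum.inr k)))))) :
    Ram φ p (diagonal F) (algebraMap (OAt φ p hp) K (U (e (Sum.inr 0))))
      (algebraMap (OAt φ p hp) K (U (e (Sum.inr 1)))) := by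
  have hU : ∀ i, UnitAt φ p (algebraMap (OAt φ p hp) K (U i)) := fun i =>
    (OAt.isUnit_iff hp hφ _).1 (U i).isUnit
  refine ⟨hU _, hU _, ?_⟩
  let e0 : Fin 4 ⊕ Fin 2 ≃ Fin 6 := finSumFinEquiv
  refine ⟨(Q : Matrix _ _ K).submatrix e.symm e0.symm, ?_,
    fun i => algebraMap (OAt φ p hp) K (U (e (Sum.inl i))), fun i => hU _, ?_⟩
  · have h1 : (((Q⁻¹ : GL (Fin 4 ⊕ Fin 2) K) : Matrix _ _ K).submatrix e0.symm e.symm) *
        (Q : Matrix _ _ K).submatrix e.symm e0.symm = 1 := by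
      rw [Matrix.submatrix_mul_equiv, ← Units.val_mul, inv_mul_cancel, Units.val_one,
        Matrix.submatrix_one_equiv]
    exact (Matrix.isUnit_det_of_left_inverse h1).ne_zero
  · have h2 : diagonal F = (diagonal (F ∘ e)).submatrix e.symm e.symm := by
      rw [Matrix.submatrix_diagonal_equiv]
      congr 1
      funext i
      simp
    rw [h2, Matrix.transpose_submatrix, Matrix.submatrix_mul_equiv, Matrix.submatrix_mul_equiv, hQ,
      Matrix.submatrix_diagonal_equiv]
    congr 1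
    funext i
    fin_cases i <;> rfl

end convert

/-- The statement of Chapter 2 (helper66). -/
def ResStatement : Prop :=
  ∀ (O K : Type) [CommRing O] [IsDomain O] [IsDiscreteValuationRing O] [Field K] [Algebra O K]
    [IsFractionRing O K], (2 : ResidueField O) ≠ 0 → IsSquare (-1 : ResidueField O) →
    ∀ (r : ℕ) (V : Type) [AddCommGroup V] [Module K V] [FiniteDimensional K V],
    Module.finrank K V = 2 ^ r → ∀ (X Y : Fin r → Module.End K V) (a b : Fin r → K),
    (∀ i, X i * X i = a i • 1) → (∀ i, Y i * Y i = b i • 1) → (∀ i, X i * Y i = -(Y i * X i)) →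
    (∀ i j, i ≠ j → Commute (X i) (X j) ∧ Commute (X i) (Y j) ∧ Commute (Y i) (Y j)) →
    ∀ (p : O), Irreducible p → ∀ (m n : Fin r → ℤ) (u v : Fin r → Oˣ),
    (∀ i, a i = algebraMap O K p ^ m i * algebraMap O K (u i)) →
    (∀ i, b i = algebraMap O K p ^ n i * algebraMap O K (v i)) →
    IsSquare (∏ i, residue O (u i : O) ^ n i * residue O (v i : O) ^ m i)

section final

variable {B K : Type} [CommRing B] [IsDomain B] [UniqueFactorizationMonoid B] [Field K]
  {φ : B →+* K} {p : B} (hp : Prime p)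

omit [IsDomain B] [UniqueFactorizationMonoid B] in
theorem exists_unit_of_unitAt (hφ : FracMap φ) {x : K} (hx : UnitAt φ p x) :
    ∃ u : (OAt φ p hp)ˣ, ((u : OAt φ p hp) : K) = x := by
  have hi : IntAt φ p x := by
    obtain ⟨a, s, _, hs, h⟩ := hx
    exact ⟨a, s, hs, h⟩
  have hU : IsUnit (⟨x, hi⟩ : OAt φ p hp) := (OAt.isUnit_iff hp hφ _).2 hx
  exact ⟨hU.unit, rfl⟩

/-- Squares modulo `p` and the residue field. -/
theorem sqAt_iff (hφ : FracMap φ) [IsDiscreteValuationRing (OAt φ p hp)]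
    (u : (OAt φ p hp)ˣ) :
    SqAt φ p ((u : OAt φ p hp) : K) ↔ IsSquare (residue (OAt φ p hp) (u : OAt φ p hp)) := by
  have hirr := OAt.irreducible (φ := φ) hp hφ
  constructor
  · rintro ⟨w, hw, t, ht, h⟩
    obtain ⟨w', hw'⟩ := exists_unit_of_unitAt hp hφ hw
    refine ⟨residue _ (w' : OAt φ p hp), ?_⟩
    rw [← map_mul, ← sub_eq_zero, ← map_sub, residue_eq_zero_iff, hirr.maximalIdeal_eq,
      Ideal.mem_span_singleton]
    refine ⟨⟨t, ht⟩, ?_⟩
    apply Subtype.ext
    change ((u : OAt φ p hp) : K) - ((w' : OAt φ p hp) : K) * ((w' : OAt φ p hp) : K) = φ p * t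
    rw [← h, hw']
    ring
  · rintro ⟨r, hr⟩
    obtain ⟨w, rfl⟩ := residue_surjective r
    have hw : IsUnit w := by
      by_contra hw
      have h1 : residue (OAt φ p hp) w = 0 := (residue_eq_zero_iff w).2 hw
      rw [h1, mul_zero, residue_eq_zero_iff] at hr
      exact hr u.isUnit
    refine ⟨(w : K), (OAt.isUnit_iff hp hφ w).1 hw, ?_⟩
    rw [← map_mul, ← sub_eq_zero, ← map_sub, residue_eq_zero_iff, hirr.maximalIdeal_eq,
      Ideal.mem_span_singleton] at hr
    obtain ⟨t, ht⟩ := hr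
    refine ⟨(t : K), t.2, ?_⟩
    have h1 := congrArg Subtype.val ht
    change ((u : OAt φ p hp) : K) - (w : K) * (w : K) = φ p * (t : K) at h1
    rw [← h1]
    ring

omit [IsDomain B] [UniqueFactorizationMonoid B] in
theorem OAt.coe_zpow_unit (u : (OAt φ p hp)ˣ) (n : ℤ) :
    (((u ^ n : (OAt φ p hp)ˣ) : OAt φ p hp) : K) = ((u : OAt φ p hp) : K) ^ n := by
  have h := map_zpow (Units.map ((OAt φ p hp).subtype : OAt φ p hp →* K)) u n
  have h2 := congrArg Units.val h
  rw [Units.val_zpow_eq_zpow_val] at h2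
  exact h2

theorem residue_zpow_unit {O : Type} [CommRing O] [IsLocalRing O] (u : Oˣ) (n : ℤ) :
    residue O ((u ^ n : Oˣ) : O) = residue O (u : O) ^ n := by
  have h := map_zpow (Units.map (residue O : O →* ResidueField O)) u n
  have h2 := congrArg Units.val h
  rw [Units.val_zpow_eq_zpow_val] at h2
  exact h2

/-- Chapter 2 from the residue theorem. -/
theorem rnf_of_res (hres : ResStatement) : RnfStatement := by
  intro B K _ _ _ _ φ hφ h2 hi0 p hp a b a' b' ha hb ha' hb' hsplit m n u v hu hv hau hbv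
  obtain ⟨i0, hi0⟩ := hi0
  have : IsDiscreteValuationRing (OAt φ p hp) := OAt.isDVR hp hφ
  have : IsFractionRing (OAt φ p hp) K := OAt.isFractionRing hp hφ
  have hirr := OAt.irreducible (φ := φ) hp hφ
  -- residue characteristic and the square root of -1
  have h2' : (2 : ResidueField (OAt φ p hp)) ≠ 0 := by
    have h3 : IsUnit (OAt.ofB (φ := φ) hp 2) := by
      rw [OAt.ofB_isUnit_iff hp hφ]
      exact fun h => hp.not_isUnit (isUnit_of_dvd_unit h h2)
    have h4 : OAt.ofB (φ := φ) hp 2 = (2 : OAt φ p hp) := by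
      apply Subtype.ext
      change φ 2 = ((2 : OAt φ p hp) : K)
      rw [map_ofNat]; rfl
    rw [h4] at h3
    have h5 := h3.map (residue (OAt φ p hp))
    rw [map_ofNat] at h5
    exact h5.ne_zero
  have hi : IsSquare (-1 : ResidueField (OAt φ p hp)) := by
    refine ⟨residue _ (OAt.ofB (φ := φ) hp i0), ?_⟩
    rw [← map_mul]
    have h4 : OAt.ofB (φ := φ) hp i0 * OAt.ofB (φ := φ) hp i0 = (-1 : OAt φ p hp) := by
      apply Subtype.ext
      change φ i0 * φ i0 = ((-1 : OAt φ p hp) : K)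
      rw [← map_mul, ← sq, hi0, map_neg, map_one]; rfl
    rw [h4, map_neg, map_one]
  -- the five symbols
  obtain ⟨X, Y, hX, hY, hXY, hc⟩ := hsplit
  choose mu hmu using fun j => exists_unit_of_unitAt hp hφ (hu j)
  choose mv hmv using fun j => exists_unit_of_unitAt hp hφ (hv j)
  choose m' u' hm' using fun j => exists_zpow_unit hp hφ (a' j) (ha' j)
  choose n' v' hn' using fun j => exists_zpow_unit hp hφ (b' j) (hb' j)
  let E := Matrix.toLinAlgEquiv' (R := K) (n := Fin (2 ^ (3 + 2)))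
  have hsq := hres (OAt φ p hp) K h2' hi (3 + 2) (Fin (2 ^ (3 + 2)) → K) (by simp)
    (fun j => E (X j)) (fun j => E (Y j)) (Fin.append a a') (Fin.append b b')
    (fun j => by rw [← map_mul, hX, map_smul, map_one])
    (fun j => by rw [← map_mul, hY, map_smul, map_one])
    (fun j => by rw [← map_mul, hXY, map_neg, map_mul])
    (fun i j hij => by
      obtain ⟨h1, h3, h4⟩ := hc i j hij
      exact ⟨by rw [Commute, SemiconjBy, ← map_mul, h1, map_mul],
        by rw [Commute, SemiconjBy, ← map_mul, h3, map_mul],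
        by rw [Commute, SemiconjBy, ← map_mul, h4, map_mul]⟩)
    (OAt.ofB hp p) hirr (Fin.append m m') (Fin.append n n') (Fin.append mu u') (Fin.append mv v')
    (fun i => by
      refine Fin.addCases (fun j => ?_) (fun j => ?_) i
      · rw [Fin.append_left, Fin.append_left, Fin.append_left, hau]
        change φ p ^ m j * u j = φ p ^ m j * ((mu j : OAt φ p hp) : K)
        rw [hmu]
      · rw [Fin.append_right, Fin.append_right, Fin.append_right, hm']
        rfl)
    (fun i => by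
      refine Fin.addCases (fun j => ?_) (fun j => ?_) i
      · rw [Fin.append_left, Fin.append_left, Fin.append_left, hbv]
        change φ p ^ n j * v j = φ p ^ n j * ((mv j : OAt φ p hp) : K)
        rw [hmv]
      · rw [Fin.append_right, Fin.append_right, Fin.append_right, hn']
        rfl)
  rw [Fin.prod_univ_add] at hsq
  simp only [Fin.append_left, Fin.append_right, Fin.prod_univ_two] at hsq
  -- the unit `f`
  let f : (OAt φ p hp)ˣ := ∏ j, mu j ^ n j * mv j ^ m j
  have hfK : ((f : OAt φ p hp) : K) = ∏ j, u j ^ n j * v j ^ m j := by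
    have h4 : ((f : OAt φ p hp) : K) =
        ((Units.map ((OAt φ p hp).subtype : OAt φ p hp →* K)) f : K) := rfl
    rw [h4, map_prod, Units.coe_prod]
    refine Finset.prod_congr rfl fun j _ => ?_
    rw [map_mul, Units.val_mul]
    change ((((mu j ^ n j : (OAt φ p hp)ˣ)) : OAt φ p hp) : K) *
      ((((mv j ^ m j : (OAt φ p hp)ˣ)) : OAt φ p hp) : K) = _
    rw [OAt.coe_zpow_unit, OAt.coe_zpow_unit, hmu, hmv]
  have hfr : residue (OAt φ p hp) (f : OAt φ p hp) =
      ∏ j, residue (OAt φ p hp) (mu j : OAt φ p hp) ^ n j *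
        residue (OAt φ p hp) (mv j : OAt φ p hp) ^ m j := by
    rw [Units.coe_prod, map_prod]
    refine Finset.prod_congr rfl fun j _ => ?_
    rw [Units.val_mul, map_mul, residue_zpow_unit, residue_zpow_unit]
  have hf0 : residue (OAt φ p hp) (f : OAt φ p hp) ≠ 0 := by
    rw [Ne, residue_eq_zero_iff]
    exact fun h => h f.isUnit
  rw [← hfr] at hsq
  have hune : ∀ w : (OAt φ p hp)ˣ, residue (OAt φ p hp) (w : OAt φ p hp) ≠ 0 := fun w => by
    rw [Ne, residue_eq_zero_iff]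
    exact fun h => h w.isUnit
  -- the two exponents
  obtain ⟨ε, hε, hcase⟩ := main_cases m' n' (fun j => residue (OAt φ p hp) (u' j : OAt φ p hp))
    (fun j => residue (OAt φ p hp) (v' j : OAt φ p hp)) (fun j => hune _) (fun j => hune _)
    (residue (OAt φ p hp) (f : OAt φ p hp)) hsq
  let F : Fin 6 → K := fun i => φ p ^ ε * albert a' b' i
  have hp0 : φ p ≠ 0 := hφ.ne_zero' hp.ne_zero
  have hF : ∀ i, F i = algebraMap (OAt φ p hp) K (OAt.ofB hp p) ^ (expo m' n' i + ε) *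
      algebraMap (OAt φ p hp) K ((unitp u' v' i : (OAt φ p hp)ˣ) : OAt φ p hp) := by
    intro i
    change φ p ^ ε * albert a' b' i = φ p ^ (expo m' n' i + ε) *
      (((unitp u' v' i : (OAt φ p hp)ˣ) : OAt φ p hp) : K)
    rw [zpow_add₀ hp0, zpow_natCast]
    have hm0 := hm' 0
    have hm1 := hm' 1
    have hn0 := hn' 0
    have hn1 := hn' 1
    fin_cases i <;> simp only [albert, expo, unitp, Fin.zero_eta, Fin.mk_one, Fin.reduceFinMk,
      Matrix.cons_val] <;> (try rw [zpow_add₀ hp0]) <;>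
      simp only [hm0, hm1, hn0, hn1, Units.val_mul, Subring.coe_mul] <;> ring
  have hres' : ∀ i, residue (OAt φ p hp) ((unitp u' v' i : (OAt φ p hp)ˣ) : OAt φ p hp) =
      unitp (fun j => residue (OAt φ p hp) (u' j : OAt φ p hp))
        (fun j => residue (OAt φ p hp) (v' j : OAt φ p hp)) i := by
    intro i
    fin_cases i <;> simp [unitp]
  have hsqf : SqAt φ p (∏ j, u j ^ n j * v j ^ m j) ↔
      IsSquare (residue (OAt φ p hp) (f : OAt φ p hp)) := by
    rw [← hfK]
    exact sqAt_iff hp hφ f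
  rw [hsqf]
  rcases hcase with ⟨heven, hfs⟩ | ⟨i, j, hij, hoi, hoj, hek, hsij⟩
  · refine ⟨fun _ => ⟨ε, hε, ?_⟩, fun h => absurd hfs h⟩
    exact uni_of_unimod hp hφ (Equiv.refl (Fin 6)) F
      (uni_all_even (p := OAt.ofB hp p) hirr F (fun i => expo m' n' i + ε) (unitp u' v') hF heven)
  · obtain ⟨e, he0, he1, huni, Q, hQ⟩ := two_odd (p := OAt.ofB hp p) hirr hi F
      (fun i => expo m' n' i + ε) (unitp u' v') hF hij hoi hoj hek
      (residue (OAt φ p hp) (f : OAt φ p hp)) hf0 (by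
        rw [map_mul, hres', hres']; exact hsij)
    refine ⟨fun hfs => ⟨ε, hε, uni_of_unimod hp hφ e F (huni hfs)⟩, fun _ => ⟨ε, hε, _, _,
      ram_of_congr hp hφ e F (unitp u' v') Q hQ, ?_⟩⟩
    rw [← hfK, he0, he1]
    change SqAt φ p (((f * (unitp u' v' i * unitp u' v' j) : (OAt φ p hp)ˣ) : OAt φ p hp) : K)
    rw [sqAt_iff hp hφ, Units.val_mul, Units.val_mul, map_mul, map_mul, hres', hres', mul_comm]
    exact hsij

end final

end Pool.Agent.PI
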